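import Pool.Agent.R986.ARHeavy
import Pool.Agent.R986.ARPattern

/-!
# Algebraic recurrence does not pass to subgroups of finite index

The group is the generalized dihedral group of `⨁_ℤ ℤ`. All its elements outside the abelian
subgroup `⨁_ℤ ℤ` of index two are involutions, which makes it algebraically recurrent, while
`⨁_ℤ ℤ` itself is not algebraically recurrent.
-/

set_option autoImplicit false

open MeasureTheory

namespace Pool.Agent.Results.MP_7faad7_pr.IndexTwoCounterexample

open Pool.Agent.R986.AlgRec

/-- The action of the group `{1, -1}` on an abelian group: `-1` acts by inversion. -/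
def invHom (A : Type) [CommGroup A] : ℤˣ →* MulAut A where
  toFun ε := if ε = 1 then 1 else MulEquiv.inv A
  map_one' := by simp
  map_mul' := by
    intro x y
    rcases Int.units_eq_one_or x with rfl | rfl <;> rcases Int.units_eq_one_or y with rfl | rfl
    · simp
    · simp
    · simp
    · ext a
      simp [MulAut.mul_apply]

theorem invHom_neg (A : Type) [CommGroup A] (a : A) : invHom A (-1) a = a⁻¹ := by
  have h : ((-1 : ℤˣ) = 1) = False := by decide
  simp [invHom]

section
variable (A : Type) [CommGroup A]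

theorem not_mem_range {A : Type} [CommGroup A] {g : A ⋊[invHom A] ℤˣ}
    (hg : g ∉ (SemidirectProduct.inl : A →* A ⋊[invHom A] ℤˣ).range) : g * g = 1 := by
  have hr : g.right ≠ 1 := by
    intro h
    apply hg
    refine ⟨g.left, ?_⟩
    ext
    · simp
    · simp [h]
  have hr' : g.right = -1 := by
    rcases Int.units_eq_one_or g.right with h | h
    · exact absurd h hr
    · exact h
  ext
  · rw [SemidirectProduct.mul_left, hr', invHom_neg, mul_inv_cancel]
    rfl
  · rw [SemidirectProduct.mul_right, hr']
    rfl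

theorem index_range : (SemidirectProduct.inl : A →* A ⋊[invHom A] ℤˣ).range.index = 2 := by
  rw [SemidirectProduct.range_inl_eq_ker_rightHom, Subgroup.index_ker,
    MonoidHom.range_eq_top.2 SemidirectProduct.rightHom_surjective]
  rw [Subgroup.card_top, Nat.card_eq_fintype_card]
  rfl

end

/-- Algebraic recurrence does not pass to subgroups of finite index. There is a countable group
`G` (the generalized dihedral group of the direct sum of countably many copies of `ℤ`) which is
algebraically recurrent and has a subgroup `H` of index two which is not. -/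
theorem result : ∃ (G : Type) (_ : Group G) (_ : Countable G), IsAR G ∧
    ∃ H : Subgroup G, H.index = 2 ∧ ∃ μ : PMF H, Admissible μ ∧
      ∃ n : ℕ, 1 ≤ n ∧ 0 < (@steps H ⊤ μ) {ω | tail ω n ≠ ⊤} := by
  have hc : Countable (Multiplicative (ℤ →₀ ℤ)) := inferInstanceAs (Countable (ℤ →₀ ℤ))
  have hcG : Countable (Multiplicative (ℤ →₀ ℤ) ⋊[invHom (Multiplicative (ℤ →₀ ℤ))] ℤˣ) :=
    SemidirectProduct.equivProd.countable_iff.2 inferInstance
  refine ⟨Multiplicative (ℤ →₀ ℤ) ⋊[invHom (Multiplicative (ℤ →₀ ℤ))] ℤˣ, inferInstance, hcG,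
    isAR_of_involutions _ (index_range _) (fun g hg => not_mem_range hg),
    (SemidirectProduct.inl : Multiplicative (ℤ →₀ ℤ) →* _).range, index_range _, ?_⟩
  have hnot : ¬ IsAR (SemidirectProduct.inl : Multiplicative (ℤ →₀ ℤ) →*
      Multiplicative (ℤ →₀ ℤ) ⋊[invHom (Multiplicative (ℤ →₀ ℤ))] ℤˣ).range := by
    intro h
    have h2 : IsAR (Multiplicative (ℤ →₀ ℤ)) :=
      h.quotient (MonoidHom.ofInjective (f := (SemidirectProduct.inl :
        Multiplicative (ℤ →₀ ℤ) →* Multiplicative (ℤ →₀ ℤ) ⋊[invHom _] ℤˣ))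
        SemidirectProduct.inl_injective).symm.toMonoidHom (MulEquiv.surjective _)
    let _ : MeasurableSpace (Multiplicative (ℤ →₀ ℤ)) := ⊤
    exact (not_ar_iff _).2 (not_ar_of_one_notMem _ nuS_ae) (h2 _ nuS_admissible)
  unfold IsAR at hnot
  push Not at hnot
  obtain ⟨μ, hμ, hAR⟩ := hnot
  refine ⟨μ, hμ, ?_⟩
  let _ : MeasurableSpace (SemidirectProduct.inl : Multiplicative (ℤ →₀ ℤ) →*
      Multiplicative (ℤ →₀ ℤ) ⋊[invHom (Multiplicative (ℤ →₀ ℤ))] ℤˣ).range := ⊤
  exact (not_ar_iff _).1 hAR

end Pool.Agent.Results.MP_7faad7_pr.IndexTwoCounterexample
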